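import Pool.Agent.Y825.KS.Shadow

/-! # Kalai's conjecture for tight trees in its shadow form

For every tight `r`-tree `T` with `t` edges, every `T`-free `r`-graph `H` satisfies
`|H| ≤ ((t - 1) / r) |∂H|`, where `∂H` is the family of `(r-1)`-sets contained in edges of `H`. -/

set_option autoImplicit false

namespace Pool.Agent.Results.MP_b4409b_co.ShadowBound

open Finset

/-- `e 0, …, e (t - 1)` is a proper ordering of the edges of a tight `r`-tree: all `e i` have `r`
elements, and every `e i` with `i > 0` has a vertex which is in no earlier edge, the other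
vertices of `e i` being contained in one earlier edge. -/
def IsTightTree (r t : ℕ) (e : ℕ → Finset ℕ) : Prop :=
  (∀ i, i < t → (e i).card = r) ∧
    ∀ i, 0 < i → i < t → ∃ v ∈ e i, (∀ j, j < i → v ∉ e j) ∧ ∃ j, j < i ∧ e i \ {v} ⊆ e j

/-- `H` contains a copy of the hypergraph with edges `e 0, …, e (t - 1)`: there is a map which is
injective on the vertices of these edges and sends every one of them to an edge of `H`. -/
def ContainsCopy {n : ℕ} (H : Finset (Finset (Fin n))) (t : ℕ) (e : ℕ → Finset ℕ) : Prop :=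
  ∃ f : ℕ → Fin n, Set.InjOn f {x : ℕ | ∃ i, i < t ∧ x ∈ e i} ∧ ∀ i, i < t → (e i).image f ∈ H

/-- **Kalai's conjecture, shadow form.** -/
theorem result : ∀ (r t : ℕ), 1 ≤ r → 1 ≤ t → ∀ e : ℕ → Finset ℕ, IsTightTree r t e →
    ∀ (n : ℕ) (H : Finset (Finset (Fin n))), (∀ h ∈ H, h.card = r) → ¬ ContainsCopy H t e →
      (H.card : ℝ) ≤ ((t : ℝ) - 1) / (r : ℝ) * (Finset.shadow H).card := by
  intro r t hr ht e he n H hH hno
  obtain ⟨d, rfl⟩ : ∃ d, r = d + 1 := ⟨r - 1, by omega⟩
  have hk := Y825.KS.kalai_shadow (d := d) (V := Fin n) e t ht (he.1 0 ht) ?_ H hH ?_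
  · have h1 : (((H.card * (d + 1) : ℕ)) : ℝ) ≤ (((t - 1) * (Finset.shadow H).card : ℕ) : ℝ) := by
      exact_mod_cast hk
    rw [Nat.cast_mul, Nat.cast_mul, Nat.cast_sub ht, Nat.cast_one] at h1
    rw [div_mul_eq_mul_div, le_div_iff₀ (by positivity)]
    exact h1
  · intro i hi hit
    obtain ⟨v, hv, hnew, j, hj, hsub⟩ := he.2 i hi hit
    refine ⟨j, hj, e i \ {v}, hsub, ?_, v, ?_, ?_⟩
    · rw [Finset.card_sdiff_of_subset (Finset.singleton_subset_iff.2 hv), he.1 i hit,
        Finset.card_singleton]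
      omega
    · rw [Finset.mem_biUnion]
      rintro ⟨k, hk, hvk⟩
      exact hnew k (Finset.mem_range.1 hk) hvk
    · ext x
      by_cases hx : x = v
      · subst hx; simp [hv]
      · simp [hx]
  · rintro ⟨f, f1, f2⟩
    apply hno
    refine ⟨f, ?_, f2⟩
    intro x hx y hy hxy
    apply f1 _ _ hxy
    · obtain ⟨i, hi, hxi⟩ := hx
      rw [Finset.mem_coe, Finset.mem_biUnion]
      exact ⟨i, Finset.mem_range.2 hi, hxi⟩
    · obtain ⟨i, hi, hxi⟩ := hy
      rw [Finset.mem_coe, Finset.mem_biUnion]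
      exact ⟨i, Finset.mem_range.2 hi, hxi⟩

end Pool.Agent.Results.MP_b4409b_co.ShadowBound
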